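import Pool.Agent.Helper82.LG.Main

set_option autoImplicit false

/-!
# Pair guessing can fail at the successor of a singular cardinal that is not a strong limit

There is a countable transitive model of ZFC with a singular cardinal `λ` (of cofinality `ω`) that is
not a strong limit, with `2 ^ λ = λ⁺`, and with a stationary set `S ⊆ λ⁺` of ordinals of cofinality
`ω` such that no ladder system on `S` is `2`-pair-guessing.

The definitions are in `Pool/Agent/Helper82/LG/Defs.lean` and `Pool/Agent/Helper23/CK/Defs.lean`
(`ZFC`, `Mem`, `IsOrdinal`, `CardLe`) and `Pool/Agent/Helper23/WT/Defs.lean` (`ZF`, `IsFun`, `App`,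
`IsOmega`).
-/

namespace Pool.Agent.Results.MP_db16df_lc.NoPairGuessingModel

open Pool.Agent.Helper23.CK (ZFC Mem)
open Pool.Agent.Helper82.LG (NoPairGuessing)

/-- There is a countable transitive model of ZFC in which there are a singular cardinal `λ` that is
not a strong limit with `2 ^ λ = λ⁺`, and a stationary set `S ⊆ λ⁺` of ordinals of cofinality
`ω = cf λ` such that no ladder system on `S` is `2`-pair-guessing. -/
theorem result : ∃ M : ZFSet.{0}, M.IsTransitive ∧ {z | z ∈ M}.Countable ∧ ZFC (Mem M) ∧
    NoPairGuessing (Mem M) := Pool.Agent.Helper82.LG.main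

end Pool.Agent.Results.MP_db16df_lc.NoPairGuessingModel
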